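import Pool.Agent.ATP.Stmts
import Pool.Agent.Helper43_AT3.QT2
import Pool.Agent.Helper77_ML.Fin

/-!
# Squad ATP, row FNP: the final theorem, given the bound
-/

open scoped BigOperators

noncomputable section

namespace Pool.Agent.PP.TP.H43

open Pool.Agent.Helper51_AWC Pool.Agent.Helper79_WRA Pool.Agent.PP Pool.Agent.PP.KF
open Pool.Agent.PP.K9 Pool.Agent.PP.K9.H97 Pool.Agent.PP.H75 Pool.Agent.PP.T3 Pool.Agent.PP.T2
open Pool.Agent.PP.TB

attribute [local instance] Ideal.Quotient.field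

theorem uw_map {A B : Type} [Group A] [Group B] (p : A →* B) (n : ℕ) (Z : Subgroup A) :
    Uw n (Z.map p) = (Uw n Z).map p := by
  unfold Uw
  rw [MonoidHom.map_closure]
  congr 1
  ext y
  constructor
  · rintro ⟨_, ⟨x, hx, rfl⟩, rfl⟩
    exact ⟨x ^ n, ⟨x, hx, rfl⟩, map_pow p x n⟩
  · rintro ⟨_, ⟨x, hx, rfl⟩, rfl⟩
    exact ⟨p x, ⟨x, hx, rfl⟩, (map_pow p x n).symm⟩

theorem card_map_ker {A B : Type} [Group A] [Group B] [Finite A] (p : A →* B) {S : Subgroup A}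
    (h : p.ker ≤ S) : Nat.card (S.map p) * Nat.card p.ker = Nat.card S := by
  have h1 : (p.subgroupMap S).ker = p.ker.subgroupOf S := by
    ext x
    rw [MonoidHom.mem_ker, Subgroup.mem_subgroupOf, MonoidHom.mem_ker]
    constructor
    · intro h2
      exact congrArg Subtype.val h2
    · intro h2
      exact Subtype.ext h2
  have h2 := Subgroup.card_eq_card_quotient_mul_card_subgroup (p.subgroupMap S).ker
  rw [h2]
  have h3 : Nat.card (S ⧸ (p.subgroupMap S).ker) = Nat.card (S.map p) :=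
    Nat.card_congr
      (QuotientGroup.quotientKerEquivOfSurjective _ (p.subgroupMap_surjective S)).toEquiv
  have h4 : Nat.card (p.subgroupMap S).ker = Nat.card p.ker := by
    rw [h1]
    exact Nat.card_congr (Subgroup.subgroupOfEquivOfLe h).toEquiv
  rw [h3, h4]

/-- FNP -/
theorem fnp (hTPA : TpaStmt) (hDZ5 : T5.Dz5Stmt) : FnpStmt := by
  classical
  intro ℓ hfact M _ hM r p₀ c a hBd hca hpa G _ _ hc χ hχ D hD Z hZ hOZ hZc hZr hZp hz
  have hℓ : ℓ.Prime := hfact.out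
  have hF : GoodF ℓ (FF M) := H50.fld ℓ hℓ M hM
  have hn : (opCore ℓ G).Normal := H75.opCore_normal (A := G) ℓ
  obtain ⟨e, he, h1, h2⟩ := H50.bid ℓ hℓ M hM G χ hχ
  let p : G →* G ⧸ opCore ℓ G := QuotientGroup.mk' (opCore ℓ G)
  have hker : p.ker = opCore ℓ G := QuotientGroup.ker_mk' _
  have hsurj : Function.Surjective p := QuotientGroup.mk'_surjective (opCore ℓ G)
  have hkp : IsPGroup ℓ p.ker := by
    rw [hker]
    exact H75.opCore_isPGroup hℓ
  have hkc : p.ker ≤ Subgroup.center G := by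
    rw [hker]
    exact hc
  obtain ⟨hblk, hOD, hcm, hTp⟩ := hDZ5 ℓ M hM G hc χ hχ D hD e he h1
    (G ⧸ opCore ℓ G) p hsurj hker
  have heq := H75.altSum_central H20.nls H20.brm H63.smt H94.nch
    (H50.dic H20.ibn H20.nls H20.brm) hℓ M hM hF hsurj hker hkp hkc χ hχ e he h1 h2
  have hmem : ∀ x : G, p x = 1 ↔ x ∈ opCore ℓ G := by
    intro x
    rw [← MonoidHom.mem_ker]
    exact iff_of_eq (congrArg (fun S : Subgroup G => x ∈ S) hker)
  have hcomm : ∀ x y : G, x * y * x⁻¹ * y⁻¹ ∈ opCore ℓ G → p x * p y = p y * p x := by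
    intro x y h
    have h3 := (hmem _).2 h
    rw [map_mul, map_mul, map_mul, map_inv, map_inv] at h3
    have h4 : p x * p y * (p x)⁻¹ = p y := mul_inv_eq_one.1 h3
    exact mul_inv_eq_iff_eq_mul.1 h4
  have hzc : ∀ x ∈ D, (∀ d ∈ D, x * d * x⁻¹ * d⁻¹ ∈ opCore ℓ G) → p x ∈ Zc (D.map p) := by
    intro x hx h
    refine Subgroup.mem_inf.2 ⟨Subgroup.mem_map_of_mem p hx, ?_⟩
    refine Subgroup.mem_centralizer_iff.2 ?_
    rintro _ ⟨d, hd, rfl⟩
    exact (hcomm x d (h d hd)).symm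
  have hO0 : 0 < Nat.card p.ker := Nat.card_pos
  have hkZ : p.ker ≤ Z := hker.le.trans hOZ
  have hkD : p.ker ≤ D := hkZ.trans hZ
  have hkU : p.ker ≤ Uw ℓ Z ⊔ opCore ℓ G := hker.le.trans le_sup_right
  have hUmap : Uw ℓ (Z.map p) = (Uw ℓ Z ⊔ opCore ℓ G).map p := by
    rw [uw_map, Subgroup.map_sup]
    refine (sup_eq_left.2 ?_).symm
    rintro _ ⟨x, hx, rfl⟩
    rw [(hmem x).2 hx]
    exact one_mem _
  have hCl : Cl ℓ r p₀ (D.map p) := by
    refine ⟨Z.map p, ?_, ?_, ?_⟩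
    · rintro _ ⟨x, hx, rfl⟩
      exact hzc x (hZ hx) (hZc x hx)
    · refine Nat.le_of_mul_le_mul_right ?_ hO0
      rw [mul_assoc, card_map_ker p hkD, card_map_ker p hkZ]
      exact hZp
    · refine Nat.le_of_mul_le_mul_right ?_ hO0
      rw [mul_assoc, hUmap, card_map_ker p hkU, card_map_ker p hkZ]
      exact hZr
  obtain ⟨z, hzD, hzc', hzo⟩ := hz
  have hord : orderOf (p z) = ℓ ^ a := by
    apply Nat.dvd_antisymm
    · rw [orderOf_dvd_iff_pow_eq_one, ← map_pow, hmem, hzo]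
    · rw [← hzo, ← hmem, map_pow]
      exact pow_orderOf_eq_one _
  have h0 : YY ℓ (⊤ : Subgroup (G ⧸ opCore ℓ G)) (push p e) = 0 :=
    hTPA ℓ M hM r p₀ c a hBd hca hpa (G ⧸ opCore ℓ G) (push p e) (D.map p) hblk hTp hCl
      ⟨p z, hzc z hzD hzc', hord⟩
  rw [h0, mul_zero] at heq
  rcases mul_eq_zero.1 heq with h | h
  · exact absurd h (by exact_mod_cast (Nat.card_pos (α := G)).ne')
  · exact h

end Pool.Agent.PP.TP.H43
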