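import Pool.Agent.ATP.Stmts
import Pool.Agent.Helper43_AT5.T5A

/-!
# Squad ATP, row TPA: the main theorem for block idempotents, given the bound
-/

open scoped BigOperators

noncomputable section

namespace Pool.Agent.PP.TP.H43

open Pool.Agent.Helper51_AWC Pool.Agent.Helper79_WRA Pool.Agent.PP Pool.Agent.PP.KF
open Pool.Agent.PP.K9 Pool.Agent.PP.K9.H97 Pool.Agent.PP.H75 Pool.Agent.PP.T3 Pool.Agent.PP.T2
open Pool.Agent.PP.TB

attribute [local instance] Ideal.Quotient.field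

/-- an element of order `ℓ ^ a'` has a power of order `ℓ ^ a` -/
theorem pow_ord {G : Type} [Group G] {ℓ a a' : ℕ} (hℓ : ℓ.Prime) (h : a ≤ a') {V : Subgroup G}
    (hz : ∃ z ∈ V, orderOf z = ℓ ^ a') : ∃ z ∈ V, orderOf z = ℓ ^ a := by
  obtain ⟨z, hz, ho⟩ := hz
  refine ⟨z ^ ℓ ^ (a' - a), V.pow_mem hz _, ?_⟩
  rw [orderOf_pow_of_dvd (pow_ne_zero _ hℓ.ne_zero) (by
    rw [ho]; exact pow_dvd_pow ℓ (Nat.sub_le a' a)), ho, Nat.pow_div (Nat.sub_le a' a) hℓ.pos]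
  congr 1
  omega

theorem tpa (hZCF : ZcfStmt) (hFSP : FspStmt) (hUOP : UopStmt) (hTA5 : T5.Ta5Stmt)
    (hTYP : TypStmt) (hTXP : TxpStmt) (hTS5 : T5.Ts5Stmt) (hDVP : DvpStmt) : TpaStmt := by
  intro ℓ hℓ M _ hM r p c a hBd hca hpa
  have hF : GoodF ℓ (FF M) := H50.fld ℓ Fact.out M hM
  suffices hmain : ∀ n : ℕ, ∀ (G : Type) [Group G] [Finite G], Nat.card G = n →
      ∀ (e : G → FF M) (V : Subgroup G), IsBlk e → Tp ℓ e V → Cl ℓ r p V →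
      (∃ z ∈ Zc V, orderOf z = ℓ ^ a) → YY ℓ ⊤ e = 0 by
    intro G _ _ e V h1 h2 h3 h4
    exact hmain _ G rfl e V h1 h2 h3 h4
  intro n
  induction n using Nat.strong_induction_on with
  | _ n ih =>
  intro G _ _ hn e V he hTp hCl hz
  by_cases hO : opCore ℓ G = ⊥
  swap
  · exact H96.yzr ℓ (FF M) hℓ.out G ⊤ inferInstance (opCore_top_ne rfl hO) e
  have hIh : Ihz M ℓ r p a (Nat.card G) := by
    intro A _ _ hA f hf V' hV' hc hz'
    exact ih (Nat.card A) (hn ▸ hA) A rfl f V' hf hV' hc hz'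
  obtain ⟨z1, z2, z3, z4⟩ := hZCF G V
  obtain ⟨a', haa', hexp⟩ := z4 ℓ a hℓ.out hTp.pg hz
  obtain ⟨c1, c2, c3⟩ := z3 ℓ r p hCl
  have hHz : Hz ℓ a' p e V := ⟨he, hTp, hexp, c1, by omega⟩
  obtain ⟨f, hf⟩ := hFSP ℓ M hM G a' p e V hHz
  have hUo := hUOP ℓ M hM G a' p e V hHz f hf
  obtain ⟨u1, u2, u3, u4, u5, u6⟩ := z2 ℓ a'
  obtain ⟨u7, hz'⟩ := u6 hℓ.out (by omega) hexp
  have hUV : Uz ℓ a' V ≤ V := u1.trans z1.1
  have o1 : IsPGroup ℓ (Uz ℓ a' V) := hTp.pg.to_le hUV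
  have h1 := hTS5 ℓ (FF M) hF G e he.1 (Uz ℓ a' V) f o1 u7 hUo
    (fun Q hQ hQ1 => hTA5 ℓ (FF M) hF G e he.1 (Uz ℓ a' V) f o1 hUo Q hQ (by
      intro f₁ hf₁ hm hg
      obtain ⟨V', hV', hc', hz''⟩ := hTYP ℓ M hM G a' p r e V hHz hCl f hf Q hQ _
        (QuotientGroup.mk' (Q.subgroupOf (Subgroup.normalizer (Q : Set G))))
        (QuotientGroup.mk'_surjective _) (QuotientGroup.ker_mk' _) f₁ hf₁ hm hg
      refine hIh _ ?_ f₁ hf₁ V' hV' hc' (pow_ord hℓ.out haa' hz'')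
      exact T5.H43.card_quot_lt hQ1))
    (fun Q hQ hQ1 hQ2 => hTXP ℓ M hM G a' p r a e V hHz hCl f hf haa' hIh _ rfl Q hQ hQ1 hQ2)
  set U : Subgroup G := Uz ℓ a' V with hU
  have hVX : V ≤ Subgroup.normalizer (U : Set G) := Subgroup.le_normalizer.trans hf.nle
  have h2 : ln e ≤ ℓ ^ c := hBd G e V he hTp hCl
  have h3 := hBd _ _ (V.subgroupOf (Subgroup.normalizer (U : Set G))) hf.blk.blk hf.tp
    (c3 _ hVX)
  obtain ⟨a1, -⟩ := H3.lbd ℓ M hM G e he.1 he.2.1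
  obtain ⟨b1, -⟩ := H3.lbd ℓ M hM _ _ hf.blk.blk.1 hf.blk.blk.2.1
  have a2 : 1 ≤ ln e := a1
  have b2 : 1 ≤ ln (fun t : Subgroup.normalizer (U : Set G) => f t) := b1
  have hV : V ≠ ⊥ := by
    intro hb
    apply u7
    rw [eq_bot_iff, ← hb]
    exact hUV
  obtain ⟨χ, hχ, r1, -, r3⟩ := H75.block_case H20.nls H20.brm H63.smt H94.nch
    (H50.dic H20.ibn H20.nls H20.brm) H50.bid H50.chp H50.ldp H50.fld hℓ.out hM hO he
    (T3.H38.pos ℓ (FF M) hF G e he V hTp.pg hV hTp.gd)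
  have h4 := hDVP ℓ M hM G hO a' p e V he hTp c1 hz' χ hχ r1
  rw [h1] at r3
  have h7 : (Nat.card G : ℤ) ≠ 0 := by exact_mod_cast Nat.card_pos.ne'
  have h8 := mul_left_cancel₀ h7 r3
  have h9 : (ln e : ℤ) - ln (fun t : Subgroup.normalizer (U : Set G) => f t) = 0 := by
    rw [h8] at h4
    refine Int.eq_zero_of_abs_lt_dvd h4 ?_
    rw [abs_lt]
    push_cast
    have hle : ℓ ^ c ≤ ℓ ^ (a' - p) := Nat.pow_le_pow_right hℓ.out.one_lt.le (by omega)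
    have h2' : (ln e : ℤ) ≤ (ℓ : ℤ) ^ (a' - p) := by exact_mod_cast h2.trans hle
    have h3' : (ln (fun t : Subgroup.normalizer (U : Set G) => f t) : ℤ) ≤
        (ℓ : ℤ) ^ (a' - p) := by
      exact_mod_cast h3.trans hle
    have a2' : (1 : ℤ) ≤ (ln e : ℤ) := by exact_mod_cast a2
    have b2' : (1 : ℤ) ≤ (ln (fun t : Subgroup.normalizer (U : Set G) => f t) : ℤ) := by
      exact_mod_cast b2
    constructor <;> linarith
  rw [h1, h9, mul_zero]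

end Pool.Agent.PP.TP.H43
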