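import Pool.Agent.Helper11_AT5.Asm5
import Pool.Agent.Helper15_ATP.PCD
import Pool.Agent.Helper16_ATP.PMX
import Pool.Agent.Helper19_ATP.PTR
import Pool.Agent.Helper27_ATP.PCJ
import Pool.Agent.Helper31_ATP.PQZ
import Pool.Agent.Helper32_ATP.PEX
import Pool.Agent.Helper39_ATP.ZCF
import Pool.Agent.Helper41_ATP.UOP
import Pool.Agent.Helper49_ATP.PXB
import Pool.Agent.Helper64_ATP.PUN
import Pool.Agent.Helper65_ATP.DVP
import Pool.Agent.Helper65_ATP.TYP
import Pool.Agent.Helper81_ATP.TXP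
import Pool.Agent.Helper82_ATP.PMK
import Pool.Agent.Helper86_ATP.PMG
import Pool.Agent.Helper94_ATP.CTQ
import Pool.Agent.Helper94_ATP.FSP
import Pool.Agent.Helper95_ATP.NP1
import Pool.Agent.Helper43_ATP.TPA
import Pool.Agent.Helper43_ATP.FNP

/-!
# Squad ATP: the statements, closed

`fnp_ : FnpStmt`: Alperin's weight conjecture for the blocks whose defect group has a large centre,
given the bound `Bd` for the number of modular characters.
-/

noncomputable section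

namespace Pool.Agent.PP.TP

open Pool.Agent.PP

theorem np1_ : Np1Stmt := H95.np1
theorem pcj_ : PcjStmt := H27.pcj
theorem pex_ : PexStmt := H32.pex np1_ pcj_
theorem pun_ : PunStmt := H64.pun np1_ pcj_ pex_
theorem pin_ : PinStmt := H49.pin pex_ pun_
theorem pxb_ : PxbStmt := H49.pxb
theorem pmx_ : PmxStmt := H16.pmx np1_ pcj_ pxb_
theorem pmg_ : PmgStmt := H86.pmg' pmx_ pxb_
theorem ptr_ : PtrStmt := H19.ptr
theorem pmk_ : PmkStmt := H82.pmk pmx_ ptr_
theorem pcd_ : PcdStmt := H15.pcd pin_ pun_ pcj_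
theorem pqz_ : PqzStmt := H31.pqz pin_ pun_ T3.psg_
theorem zcf_ : ZcfStmt := H39.zcf T2.pwu_
theorem ctq_ : CtqStmt := H94.ctq T2.pwu_
theorem fsp_ : FspStmt := H94.fsp zcf_ K9.H69.fmg
theorem uop_ : UopStmt := H41.uop zcf_ pcj_ pex_ pun_ pxb_ pmk_ pcd_ K9.H69.fmg
theorem typ_ : TypStmt := H65.typ zcf_ ctq_ pqz_ pmg_ pxb_
theorem txp_ : TxpStmt := H81.txp zcf_ ctq_ pqz_ pmx_
theorem dvp_ : DvpStmt := H65.dvp
theorem tpa_ : TpaStmt := H43.tpa zcf_ fsp_ uop_ T5.ta5_ typ_ txp_ T5.ts5_ dvp_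
theorem fnp_ : FnpStmt := H43.fnp tpa_ T5.dz5_

end Pool.Agent.PP.TP
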