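import Pool.Agent.Helper43_ATP.Asm
import Pool.Agent.Helper11_ZAS.AsmZ
import Pool.Agent.Helper57_AT10.Asm10

/-!
# Theorem T11: the final form
-/

open scoped BigOperators

noncomputable section

namespace Pool.Agent.PP.TP.H43

open Pool.Agent.Helper51_AWC Pool.Agent.Helper79_WRA Pool.Agent.PP Pool.Agent.PP.KF
open Pool.Agent.PP.K9 Pool.Agent.PP.K9.H97 Pool.Agent.PP.H75 Pool.Agent.PP.T3 Pool.Agent.PP.T2
open Pool.Agent.PP.TB

attribute [local instance] Ideal.Quotient.field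

/-- the bound for all blocks of the class -/
theorem bd (stf : T10.StfStmt) (ℓ : ℕ) [Fact ℓ.Prime] (M : Ideal (integralClosure ℤ ℂ))
    [M.IsMaximal] (hM : (ℓ : integralClosure ℤ ℂ) ∈ M) (r p : ℕ) : Bd M ℓ r p (cb ℓ r p) :=
  fun G _ _ e V he hT hC =>
    bnd_ ℓ M hM G e V r p he hT hC (stf ℓ M hM G e V r p he hT hC)

/-- T11: `D` has a subgroup `Z`, central modulo `O_ℓ(G)`, with `|D : Z| ≤ ℓ ^ p` and
`|Z : Z ^ ℓ O_ℓ(G)| ≤ ℓ ^ r`, and an element which is central modulo `O_ℓ(G)` and has order `ℓ ^ a`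
modulo `O_ℓ(G)`, `a ≥ p + cb ℓ r p`. -/
theorem fin11 :
    ∀ (ℓ : ℕ) [Fact ℓ.Prime] (M : Ideal (integralClosure ℤ ℂ)) [M.IsMaximal],
    (ℓ : integralClosure ℤ ℂ) ∈ M → ∀ r p a : ℕ, 0 < a →
    3 * p + 2 * r * p + 2 * r * (p + r * p + r * r + (if ℓ = 2 then 2 else 1)) ≤ a →
    ∀ (G : Type) [Group G] [Finite G], opCore ℓ G ≤ Subgroup.center G → ∀ χ ∈ Irr G,
    ∀ D : Subgroup G, ML.IsDef ℓ M χ D → ∀ Z ≤ D, opCore ℓ G ≤ Z →
    (∀ x ∈ Z, ∀ d ∈ D, x * d * x⁻¹ * d⁻¹ ∈ opCore ℓ G) →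
    Nat.card Z ≤ ℓ ^ r *
      Nat.card (Subgroup.closure ((fun x : G => x ^ ℓ) '' (Z : Set G)) ⊔ opCore ℓ G :
        Subgroup G) →
    Nat.card D ≤ ℓ ^ p * Nat.card Z →
    (∃ z ∈ D, (∀ d ∈ D, z * d * z⁻¹ * d⁻¹ ∈ opCore ℓ G) ∧
      ∀ n : ℕ, z ^ n ∈ opCore ℓ G ↔ ℓ ^ a ∣ n) → altSum ℓ M χ = 0 := by
  intro ℓ _ M _ hM r p a ha hle G _ _ hc χ hχ D hD Z hZ hOZ hZc hZr hZp hz
  have h1 : T5.ep ℓ = if ℓ = 2 then 2 else 1 := rfl
  have h2 : cb ℓ r p + p ≤ a := by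
    unfold cb
    rw [h1]
    nlinarith [hle]
  have h3 : p < a := by
    by_contra h4
    have h5 : a ≤ p := not_lt.1 h4
    have h6 : 3 * p ≤ a := by
      have h7 : 3 * p ≤ 3 * p + 2 * r * p +
        2 * r * (p + r * p + r * r + (if ℓ = 2 then 2 else 1)) := by
        rw [add_assoc]
        exact Nat.le_add_right _ _
      exact h7.trans hle
    omega
  exact fnp_ ℓ M hM r p (cb ℓ r p) a (bd T10.stf_ ℓ M hM r p) h2 h3 G hc χ hχ D hD Z hZ hOZ hZc hZr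
    hZp hz

end Pool.Agent.PP.TP.H43
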